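import Mathlib
import Pool.Agent.Lib.MP_9d59e9_gt.KO.Defs
import Pool.Agent.Lib.MP_9d59e9_gt.KO.All

/-!
# MP_9d59e9_gt: Riemannian KS manifolds of order 2

Let `g` be a smooth Riemannian metric on an open set `Ω ⊆ ℝⁿ` such that
`∇²R + t¹ ⊗ ∇R + t² ⊗ R = 0` on `Ω` for some smooth covariant tensor fields `t¹`, `t²`.  Then near
every point where `∇R ≠ 0` one has `R = K w ⊗ w` with a parallel simple 2-form `w` (surface × flat),
and `∇R = 0` if no open subset carries a parallel field of orthogonal projections of rank 2.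

All definitions are in `Pool.Agent.Lib.MP_9d59e9_gt.KO.Defs`, part 1.
-/

set_option autoImplicit false

namespace Pool.Agent.Results.MP_9d59e9_gt.OrderTwo

open scoped BigOperators ContDiff
open Pool.Agent.Lib.MP_9d59e9_gt.KO

/-- Local classification of the Riemannian KS manifolds of order 2. -/
theorem result {n : ℕ} (g : Pt n → Matrix (Fin n) (Fin n) ℝ) (Ω : Set (Pt n))
    (hg : IsMetricOn g Ω) (t : ℕ → List (Fin n) → Pt n → ℝ)
    (ht : ∀ m l, ContDiffOn ℝ ∞ (t m l) Ω)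
    (hKS : ∀ x ∈ Ω, KSAt g 2 (fun m l => t m l x) x) :
    (∀ p ∈ Ω, (∃ a c b m q, nablaR g 1 a [c, b, m, q] p ≠ 0) →
      ∃ V ⊆ Ω, IsOpen V ∧ p ∈ V ∧ ∃ (K : Pt n → ℝ) (w : Fin n → Fin n → Pt n → ℝ),
        ContDiffOn ℝ ∞ K V ∧ IsParallelArea g w V ∧
        ∀ x ∈ V, ∀ a b c d, ∑ e, g x a e * curv g e b c d x = K x * (w a b x * w c d x)) ∧
    ((∀ V ⊆ Ω, IsOpen V → V.Nonempty → ∀ S, ¬ IsParallelProjection g S 2 V) →
      ∀ x ∈ Ω, ∀ a c b m q, nablaR g 1 a [c, b, m, q] x = 0) :=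
  sEnd n g Ω hg t ht hKS

end Pool.Agent.Results.MP_9d59e9_gt.OrderTwo
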