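import Mathlib

/-!
# MP_9d59e9_gt: a Riemannian KS manifold of order 3 which is nowhere locally symmetric

The metric `g = e^{-u} du² + e^{3u} dθ² + dv² + e^{2v} dw²` on `ℝ⁴` is the product of an extremal
surface (Gauss curvature `K = -3 e^u`, whose Hessian is pure trace) and the hyperbolic plane.  Here
`∇R = dK ⊗ E`, `∇²R = φ g_Σ ⊗ E`, `∇³R = 2 du ⊗ ∇²R`, with `E`, `g_Σ` parallel.
-/

set_option autoImplicit false

namespace Pool.Agent.Results.MP_9d59e9_gt.ProductCounterexample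

open scoped BigOperators

/-- points of the coordinate space -/
abbrev Pt (n : ℕ) := Fin n → ℝ

/-- `i`-th partial derivative of a function on `ℝⁿ` -/
noncomputable def pd {n : ℕ} (i : Fin n) (f : Pt n → ℝ) (x : Pt n) : ℝ :=
  fderiv ℝ f x (Pi.single i 1)

/-- Christoffel symbol `Γ^k_{ij}` of the metric `g` -/
noncomputable def Gam {n : ℕ} (g : Pt n → Matrix (Fin n) (Fin n) ℝ) (k i j : Fin n)
    (x : Pt n) : ℝ :=
  (1 / 2) * ∑ l, ((g x)⁻¹) k l *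
    (pd i (fun y => g y j l) x + pd j (fun y => g y i l) x - pd l (fun y => g y i j) x)

/-- curvature component `R^a_{b m n}`, i.e. `R(∂_m, ∂_n) ∂_b = R^a_{b m n} ∂_a` with
`R(X,Y)Z = ∇_X ∇_Y Z - ∇_Y ∇_X Z - ∇_{[X,Y]} Z` -/
noncomputable def curv {n : ℕ} (g : Pt n → Matrix (Fin n) (Fin n) ℝ) (a b m p : Fin n)
    (x : Pt n) : ℝ :=
  pd m (Gam g a p b) x - pd p (Gam g a m b) x
    + ∑ l, (Gam g a m l x * Gam g l p b x - Gam g a p l x * Gam g l m b x)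

/-- components of a tensor field with one upper index and a list of lower indices -/
abbrev Tens (n : ℕ) := Fin n → List (Fin n) → Pt n → ℝ

/-- covariant derivative: the new lower index is put in front,
`(∇T)^a_{c b₁ … b_k} = ∂_c T^a_{b₁ … b_k} + Γ^a_{c s} T^s_{b₁ … b_k}
   - ∑_j Γ^s_{c b_j} T^a_{b₁ … s … b_k}` -/
noncomputable def cov {n : ℕ} (g : Pt n → Matrix (Fin n) (Fin n) ℝ) (T : Tens n) : Tens n
  | _, [], _ => 0
  | a, c :: l, x => pd c (T a l) x + ∑ s, Gam g a c s x * T s l x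
      - ∑ j : Fin l.length, ∑ s, Gam g s c (l.get j) x * T a (l.set j s) x

/-- the curvature tensor as a `Tens` (lower indices `[b, m, p]`) -/
noncomputable def curvT {n : ℕ} (g : Pt n → Matrix (Fin n) (Fin n) ℝ) : Tens n
  | a, [b, m, p], x => curv g a b m p x
  | _, _, _ => 0

/-- `∇^r R`, lower indices `[c₁, …, c_r, b, m, p]` -/
noncomputable def nablaR {n : ℕ} (g : Pt n → Matrix (Fin n) (Fin n) ℝ) : ℕ → Tens n
  | 0 => curvT g
  | r + 1 => cov g (nablaR g r)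

/-- `g` is a smooth Riemannian metric on `ℝⁿ` (`n × n` matrix of smooth functions, positive
definite at every point) -/
def IsRiemannian {n : ℕ} (g : Pt n → Matrix (Fin n) (Fin n) ℝ) : Prop :=
  (∀ i j, ContDiff ℝ ((⊤ : ℕ∞) : WithTop ℕ∞) fun x => g x i j) ∧ ∀ x, (g x).PosDef

/-- the equation `∇^r R + t¹ ⊗ ∇^{r-1} R + … + t^r ⊗ R = 0` holds at the point `x`, where
`t m` is a covariant tensor of rank `m` (its components are indexed by lists of length `m`) -/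
def KSAt {n : ℕ} (g : Pt n → Matrix (Fin n) (Fin n) ℝ) (r : ℕ) (t : ℕ → List (Fin n) → ℝ)
    (x : Pt n) : Prop :=
  ∀ (a : Fin n) (l : List (Fin n)), l.length = r + 3 →
    nablaR g r a l x + ∑ m ∈ Finset.Icc 1 r, t m (l.take m) * nablaR g (r - m) a (l.drop m) x = 0

/-- `(ℝⁿ, g)` is a `KS_n` manifold of order `r`: the equation holds everywhere for some smooth
covariant tensor fields `t¹, …, t^r` -/
def IsKS {n : ℕ} (g : Pt n → Matrix (Fin n) (Fin n) ℝ) (r : ℕ) : Prop :=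
  ∃ t : ℕ → List (Fin n) → Pt n → ℝ,
    (∀ m l, ContDiff ℝ ((⊤ : ℕ∞) : WithTop ℕ∞) (t m l)) ∧ ∀ x, KSAt g r (fun m l => t m l x) x

/-- Ricci tensor `Ric_{b p} = R^a_{b a p}` -/
noncomputable def ric {n : ℕ} (g : Pt n → Matrix (Fin n) (Fin n) ℝ) (x : Pt n) :
    Matrix (Fin n) (Fin n) ℝ :=
  Matrix.of fun b p => ∑ a, curv g a b a p x

/-! ### the example -/

/-- `g = e^{-u} du² + e^{3u} dθ² + dv² + e^{2v} dw²` in coordinates `(u, θ, v, w)` -/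
noncomputable def g0 (x : Pt 4) : Matrix (Fin 4) (Fin 4) ℝ :=
  Matrix.diagonal ![Real.exp ((-1) * x 0), Real.exp (3 * x 0), 1, Real.exp (2 * x 2)]

lemma pd_const (i : Fin 4) (c : ℝ) (x : Pt 4) : pd i (fun _ => c) x = 0 := by
  simp [pd]

lemma hasFDerivAt_exp (c : ℝ) (k : Fin 4) (x : Pt 4) :
    HasFDerivAt (fun y : Pt 4 => Real.exp (c * y k))
      (Real.exp (c * x k) • (c • (ContinuousLinearMap.proj k : Pt 4 →L[ℝ] ℝ))) x := by
  have h : HasFDerivAt (fun y : Pt 4 => y k) (ContinuousLinearMap.proj k : Pt 4 →L[ℝ] ℝ) x :=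
    (ContinuousLinearMap.proj k : Pt 4 →L[ℝ] ℝ).hasFDerivAt
  exact (h.const_mul c).exp

lemma diff_exp (c : ℝ) (k : Fin 4) : Differentiable ℝ (fun y : Pt 4 => Real.exp (c * y k)) :=
  fun x => (hasFDerivAt_exp c k x).differentiableAt

lemma pd_exp (i : Fin 4) (c : ℝ) (k : Fin 4) (x : Pt 4) :
    pd i (fun y => Real.exp (c * y k)) x = if i = k then c * Real.exp (c * x k) else 0 := by
  rw [pd, (hasFDerivAt_exp c k x).fderiv]
  by_cases h : i = k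
  · subst h; simp [mul_comm]
  · simp [h, Ne.symm h]

lemma pd_expneg (i : Fin 4) (k : Fin 4) (x : Pt 4) :
    pd i (fun y => Real.exp (- y k)) x = if i = k then - Real.exp (- x k) else 0 := by
  have := pd_exp i (-1) k x
  simpa using this

lemma pd_mul (i : Fin 4) {f h : Pt 4 → ℝ} {x : Pt 4} (hf : DifferentiableAt ℝ f x)
    (hh : DifferentiableAt ℝ h x) :
    pd i (fun y => f y * h y) x = pd i f x * h x + f x * pd i h x := by
  rw [pd, fderiv_fun_mul hf hh]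
  simp [pd]; ring

lemma pd_cmul (i : Fin 4) (c : ℝ) {h : Pt 4 → ℝ} {x : Pt 4} 
    (hh : DifferentiableAt ℝ h x) :
    pd i (fun y => c * h y) x = c * pd i h x := by
  rw [pd_mul i (differentiableAt_const c) hh, pd_const]; ring

lemma pd_neg (i : Fin 4) {h : Pt 4 → ℝ} {x : Pt 4} :
    pd i (fun y => - h y) x = - pd i h x := by
  simp [pd, fderiv_fun_neg]

lemma g0_inv (x : Pt 4) : (g0 x)⁻¹ =
    Matrix.diagonal ![Real.exp (x 0), Real.exp (-(3 * x 0)), 1, Real.exp (-(2 * x 2))] := by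
  apply Matrix.inv_eq_right_inv
  rw [g0, Matrix.diagonal_mul_diagonal]
  rw [← Matrix.diagonal_one]
  congr 1
  funext i
  fin_cases i <;> simp [← Real.exp_add]

/-- Christoffel symbols -/
noncomputable def G : Fin 4 → Fin 4 → Fin 4 → Pt 4 → ℝ
  | 0, 0, 0 => fun _ => -1 / 2
  | 1, 0, 1 => fun _ => 3 / 2
  | 1, 1, 0 => fun _ => 3 / 2
  | 0, 1, 1 => fun x => (-3 / 2) * Real.exp (4 * x 0)
  | 3, 2, 3 => fun _ => 1
  | 3, 3, 2 => fun _ => 1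
  | 2, 3, 3 => fun x => (-1) * Real.exp (2 * x 2)
  | _, _, _ => fun _ => 0

lemma Gam_eq (k i j : Fin 4) : Gam g0 k i j = G k i j := by
  funext x
  have e1 : Real.exp (-(3 * x 0)) * (3 * Real.exp (3 * x 0)) = 3 := by
    rw [mul_left_comm, ← Real.exp_add]; simp
  have e2 : Real.exp (x 0) * (3 * Real.exp (3 * x 0)) = 3 * Real.exp (4 * x 0) := by
    rw [mul_left_comm, ← Real.exp_add]; ring_nf
  have e3 : Real.exp (-(2 * x 2)) * (2 * Real.exp (2 * x 2)) = 2 := by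
    rw [mul_left_comm, ← Real.exp_add]; simp
  have e4 : Real.exp (x 0) * Real.exp (-x 0) = 1 := by
    rw [← Real.exp_add]; simp
  fin_cases k <;> fin_cases i <;> fin_cases j <;>
    (simp only [Gam, g0_inv]; simp [Fin.sum_univ_four, g0, pd_exp, pd_expneg, pd_const, G]) <;>
    first
      | linear_combination (-1 / 2 : ℝ) * e4
      | linear_combination (-1 / 2 : ℝ) * e2
      | linear_combination (1 / 2 : ℝ) * e1
      | linear_combination (1 / 2 : ℝ) * e3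

/-- first derivatives of the Christoffel symbols -/
noncomputable def dG : Fin 4 → Fin 4 → Fin 4 → Fin 4 → Pt 4 → ℝ
  | 0, 0, 1, 1 => fun x => (-6) * Real.exp (4 * x 0)
  | 2, 2, 3, 3 => fun x => (-2) * Real.exp (2 * x 2)
  | _, _, _, _ => fun _ => 0

lemma pd_G (c k i j : Fin 4) (x : Pt 4) : pd c (G k i j) x = dG c k i j x := by
  have e1 : pd c (fun x : Pt 4 => (-3 / 2) * Real.exp (4 * x 0)) x =
      (-3 / 2) * pd c (fun x : Pt 4 => Real.exp (4 * x 0)) x :=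
    pd_cmul c _ (diff_exp 4 0 x)
  have e2 : pd c (fun x : Pt 4 => (-1) * Real.exp (2 * x 2)) x =
      (-1) * pd c (fun x : Pt 4 => Real.exp (2 * x 2)) x :=
    pd_cmul c _ (diff_exp 2 2 x)
  rw [pd_exp] at e1 e2
  fin_cases k <;> fin_cases i <;> fin_cases j <;>
    first
      | exact (pd_const _ _ _).trans (by fin_cases c <;> rfl)
      | (refine Eq.trans e1 ?_; fin_cases c <;> simp [dG] <;> ring)
      | (refine Eq.trans e2 ?_; fin_cases c <;> simp [dG])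

/-- complex structure of the two factors -/
noncomputable def J1 : Fin 4 → Fin 4 → Pt 4 → ℝ
  | 0, 1 => fun x => Real.exp (2 * x 0)
  | 1, 0 => fun x => (-1) * Real.exp ((-2) * x 0)
  | _, _ => fun _ => 0

noncomputable def W1 : Fin 4 → Fin 4 → Pt 4 → ℝ
  | 0, 1 => fun x => Real.exp (1 * x 0)
  | 1, 0 => fun x => (-1) * Real.exp (1 * x 0)
  | _, _ => fun _ => 0

noncomputable def J2 : Fin 4 → Fin 4 → Pt 4 → ℝ
  | 2, 3 => fun x => Real.exp (1 * x 2)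
  | 3, 2 => fun x => (-1) * Real.exp ((-1) * x 2)
  | _, _ => fun _ => 0

noncomputable def W2 : Fin 4 → Fin 4 → Pt 4 → ℝ
  | 2, 3 => fun x => Real.exp (1 * x 2)
  | 3, 2 => fun x => (-1) * Real.exp (1 * x 2)
  | _, _ => fun _ => 0

@[simp] lemma G_000 (x : Pt 4) : G 0 0 0 x = -1 / 2 := rfl
@[simp] lemma G_001 (x : Pt 4) : G 0 0 1 x = 0 := rfl
@[simp] lemma G_002 (x : Pt 4) : G 0 0 2 x = 0 := rfl
@[simp] lemma G_003 (x : Pt 4) : G 0 0 3 x = 0 := rfl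
@[simp] lemma G_010 (x : Pt 4) : G 0 1 0 x = 0 := rfl
@[simp] lemma G_011 (x : Pt 4) : G 0 1 1 x = (-3 / 2) * Real.exp (4 * x 0) := rfl
@[simp] lemma G_012 (x : Pt 4) : G 0 1 2 x = 0 := rfl
@[simp] lemma G_013 (x : Pt 4) : G 0 1 3 x = 0 := rfl
@[simp] lemma G_020 (x : Pt 4) : G 0 2 0 x = 0 := rfl
@[simp] lemma G_021 (x : Pt 4) : G 0 2 1 x = 0 := rfl
@[simp] lemma G_022 (x : Pt 4) : G 0 2 2 x = 0 := rfl
@[simp] lemma G_023 (x : Pt 4) : G 0 2 3 x = 0 := rfl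
@[simp] lemma G_030 (x : Pt 4) : G 0 3 0 x = 0 := rfl
@[simp] lemma G_031 (x : Pt 4) : G 0 3 1 x = 0 := rfl
@[simp] lemma G_032 (x : Pt 4) : G 0 3 2 x = 0 := rfl
@[simp] lemma G_033 (x : Pt 4) : G 0 3 3 x = 0 := rfl
@[simp] lemma G_100 (x : Pt 4) : G 1 0 0 x = 0 := rfl
@[simp] lemma G_101 (x : Pt 4) : G 1 0 1 x = 3 / 2 := rfl
@[simp] lemma G_102 (x : Pt 4) : G 1 0 2 x = 0 := rfl
@[simp] lemma G_103 (x : Pt 4) : G 1 0 3 x = 0 := rfl
@[simp] lemma G_110 (x : Pt 4) : G 1 1 0 x = 3 / 2 := rfl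
@[simp] lemma G_111 (x : Pt 4) : G 1 1 1 x = 0 := rfl
@[simp] lemma G_112 (x : Pt 4) : G 1 1 2 x = 0 := rfl
@[simp] lemma G_113 (x : Pt 4) : G 1 1 3 x = 0 := rfl
@[simp] lemma G_120 (x : Pt 4) : G 1 2 0 x = 0 := rfl
@[simp] lemma G_121 (x : Pt 4) : G 1 2 1 x = 0 := rfl
@[simp] lemma G_122 (x : Pt 4) : G 1 2 2 x = 0 := rfl
@[simp] lemma G_123 (x : Pt 4) : G 1 2 3 x = 0 := rfl
@[simp] lemma G_130 (x : Pt 4) : G 1 3 0 x = 0 := rfl
@[simp] lemma G_131 (x : Pt 4) : G 1 3 1 x = 0 := rfl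
@[simp] lemma G_132 (x : Pt 4) : G 1 3 2 x = 0 := rfl
@[simp] lemma G_133 (x : Pt 4) : G 1 3 3 x = 0 := rfl
@[simp] lemma G_200 (x : Pt 4) : G 2 0 0 x = 0 := rfl
@[simp] lemma G_201 (x : Pt 4) : G 2 0 1 x = 0 := rfl
@[simp] lemma G_202 (x : Pt 4) : G 2 0 2 x = 0 := rfl
@[simp] lemma G_203 (x : Pt 4) : G 2 0 3 x = 0 := rfl
@[simp] lemma G_210 (x : Pt 4) : G 2 1 0 x = 0 := rfl
@[simp] lemma G_211 (x : Pt 4) : G 2 1 1 x = 0 := rfl
@[simp] lemma G_212 (x : Pt 4) : G 2 1 2 x = 0 := rfl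
@[simp] lemma G_213 (x : Pt 4) : G 2 1 3 x = 0 := rfl
@[simp] lemma G_220 (x : Pt 4) : G 2 2 0 x = 0 := rfl
@[simp] lemma G_221 (x : Pt 4) : G 2 2 1 x = 0 := rfl
@[simp] lemma G_222 (x : Pt 4) : G 2 2 2 x = 0 := rfl
@[simp] lemma G_223 (x : Pt 4) : G 2 2 3 x = 0 := rfl
@[simp] lemma G_230 (x : Pt 4) : G 2 3 0 x = 0 := rfl
@[simp] lemma G_231 (x : Pt 4) : G 2 3 1 x = 0 := rfl
@[simp] lemma G_232 (x : Pt 4) : G 2 3 2 x = 0 := rfl
@[simp] lemma G_233 (x : Pt 4) : G 2 3 3 x = (-1) * Real.exp (2 * x 2) := rfl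
@[simp] lemma G_300 (x : Pt 4) : G 3 0 0 x = 0 := rfl
@[simp] lemma G_301 (x : Pt 4) : G 3 0 1 x = 0 := rfl
@[simp] lemma G_302 (x : Pt 4) : G 3 0 2 x = 0 := rfl
@[simp] lemma G_303 (x : Pt 4) : G 3 0 3 x = 0 := rfl
@[simp] lemma G_310 (x : Pt 4) : G 3 1 0 x = 0 := rfl
@[simp] lemma G_311 (x : Pt 4) : G 3 1 1 x = 0 := rfl
@[simp] lemma G_312 (x : Pt 4) : G 3 1 2 x = 0 := rfl
@[simp] lemma G_313 (x : Pt 4) : G 3 1 3 x = 0 := rfl
@[simp] lemma G_320 (x : Pt 4) : G 3 2 0 x = 0 := rfl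
@[simp] lemma G_321 (x : Pt 4) : G 3 2 1 x = 0 := rfl
@[simp] lemma G_322 (x : Pt 4) : G 3 2 2 x = 0 := rfl
@[simp] lemma G_323 (x : Pt 4) : G 3 2 3 x = 1 := rfl
@[simp] lemma G_330 (x : Pt 4) : G 3 3 0 x = 0 := rfl
@[simp] lemma G_331 (x : Pt 4) : G 3 3 1 x = 0 := rfl
@[simp] lemma G_332 (x : Pt 4) : G 3 3 2 x = 1 := rfl
@[simp] lemma G_333 (x : Pt 4) : G 3 3 3 x = 0 := rfl
@[simp] lemma dG_0000 (x : Pt 4) : dG 0 0 0 0 x = 0 := rfl
@[simp] lemma dG_0001 (x : Pt 4) : dG 0 0 0 1 x = 0 := rfl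
@[simp] lemma dG_0002 (x : Pt 4) : dG 0 0 0 2 x = 0 := rfl
@[simp] lemma dG_0003 (x : Pt 4) : dG 0 0 0 3 x = 0 := rfl
@[simp] lemma dG_0010 (x : Pt 4) : dG 0 0 1 0 x = 0 := rfl
@[simp] lemma dG_0011 (x : Pt 4) : dG 0 0 1 1 x = (-6) * Real.exp (4 * x 0) := rfl
@[simp] lemma dG_0012 (x : Pt 4) : dG 0 0 1 2 x = 0 := rfl
@[simp] lemma dG_0013 (x : Pt 4) : dG 0 0 1 3 x = 0 := rfl
@[simp] lemma dG_0020 (x : Pt 4) : dG 0 0 2 0 x = 0 := rfl
@[simp] lemma dG_0021 (x : Pt 4) : dG 0 0 2 1 x = 0 := rfl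
@[simp] lemma dG_0022 (x : Pt 4) : dG 0 0 2 2 x = 0 := rfl
@[simp] lemma dG_0023 (x : Pt 4) : dG 0 0 2 3 x = 0 := rfl
@[simp] lemma dG_0030 (x : Pt 4) : dG 0 0 3 0 x = 0 := rfl
@[simp] lemma dG_0031 (x : Pt 4) : dG 0 0 3 1 x = 0 := rfl
@[simp] lemma dG_0032 (x : Pt 4) : dG 0 0 3 2 x = 0 := rfl
@[simp] lemma dG_0033 (x : Pt 4) : dG 0 0 3 3 x = 0 := rfl
@[simp] lemma dG_0100 (x : Pt 4) : dG 0 1 0 0 x = 0 := rfl
@[simp] lemma dG_0101 (x : Pt 4) : dG 0 1 0 1 x = 0 := rfl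
@[simp] lemma dG_0102 (x : Pt 4) : dG 0 1 0 2 x = 0 := rfl
@[simp] lemma dG_0103 (x : Pt 4) : dG 0 1 0 3 x = 0 := rfl
@[simp] lemma dG_0110 (x : Pt 4) : dG 0 1 1 0 x = 0 := rfl
@[simp] lemma dG_0111 (x : Pt 4) : dG 0 1 1 1 x = 0 := rfl
@[simp] lemma dG_0112 (x : Pt 4) : dG 0 1 1 2 x = 0 := rfl
@[simp] lemma dG_0113 (x : Pt 4) : dG 0 1 1 3 x = 0 := rfl
@[simp] lemma dG_0120 (x : Pt 4) : dG 0 1 2 0 x = 0 := rfl
@[simp] lemma dG_0121 (x : Pt 4) : dG 0 1 2 1 x = 0 := rfl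
@[simp] lemma dG_0122 (x : Pt 4) : dG 0 1 2 2 x = 0 := rfl
@[simp] lemma dG_0123 (x : Pt 4) : dG 0 1 2 3 x = 0 := rfl
@[simp] lemma dG_0130 (x : Pt 4) : dG 0 1 3 0 x = 0 := rfl
@[simp] lemma dG_0131 (x : Pt 4) : dG 0 1 3 1 x = 0 := rfl
@[simp] lemma dG_0132 (x : Pt 4) : dG 0 1 3 2 x = 0 := rfl
@[simp] lemma dG_0133 (x : Pt 4) : dG 0 1 3 3 x = 0 := rfl
@[simp] lemma dG_0200 (x : Pt 4) : dG 0 2 0 0 x = 0 := rfl
@[simp] lemma dG_0201 (x : Pt 4) : dG 0 2 0 1 x = 0 := rfl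
@[simp] lemma dG_0202 (x : Pt 4) : dG 0 2 0 2 x = 0 := rfl
@[simp] lemma dG_0203 (x : Pt 4) : dG 0 2 0 3 x = 0 := rfl
@[simp] lemma dG_0210 (x : Pt 4) : dG 0 2 1 0 x = 0 := rfl
@[simp] lemma dG_0211 (x : Pt 4) : dG 0 2 1 1 x = 0 := rfl
@[simp] lemma dG_0212 (x : Pt 4) : dG 0 2 1 2 x = 0 := rfl
@[simp] lemma dG_0213 (x : Pt 4) : dG 0 2 1 3 x = 0 := rfl
@[simp] lemma dG_0220 (x : Pt 4) : dG 0 2 2 0 x = 0 := rfl
@[simp] lemma dG_0221 (x : Pt 4) : dG 0 2 2 1 x = 0 := rfl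
@[simp] lemma dG_0222 (x : Pt 4) : dG 0 2 2 2 x = 0 := rfl
@[simp] lemma dG_0223 (x : Pt 4) : dG 0 2 2 3 x = 0 := rfl
@[simp] lemma dG_0230 (x : Pt 4) : dG 0 2 3 0 x = 0 := rfl
@[simp] lemma dG_0231 (x : Pt 4) : dG 0 2 3 1 x = 0 := rfl
@[simp] lemma dG_0232 (x : Pt 4) : dG 0 2 3 2 x = 0 := rfl
@[simp] lemma dG_0233 (x : Pt 4) : dG 0 2 3 3 x = 0 := rfl
@[simp] lemma dG_0300 (x : Pt 4) : dG 0 3 0 0 x = 0 := rfl
@[simp] lemma dG_0301 (x : Pt 4) : dG 0 3 0 1 x = 0 := rfl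
@[simp] lemma dG_0302 (x : Pt 4) : dG 0 3 0 2 x = 0 := rfl
@[simp] lemma dG_0303 (x : Pt 4) : dG 0 3 0 3 x = 0 := rfl
@[simp] lemma dG_0310 (x : Pt 4) : dG 0 3 1 0 x = 0 := rfl
@[simp] lemma dG_0311 (x : Pt 4) : dG 0 3 1 1 x = 0 := rfl
@[simp] lemma dG_0312 (x : Pt 4) : dG 0 3 1 2 x = 0 := rfl
@[simp] lemma dG_0313 (x : Pt 4) : dG 0 3 1 3 x = 0 := rfl
@[simp] lemma dG_0320 (x : Pt 4) : dG 0 3 2 0 x = 0 := rfl
@[simp] lemma dG_0321 (x : Pt 4) : dG 0 3 2 1 x = 0 := rfl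
@[simp] lemma dG_0322 (x : Pt 4) : dG 0 3 2 2 x = 0 := rfl
@[simp] lemma dG_0323 (x : Pt 4) : dG 0 3 2 3 x = 0 := rfl
@[simp] lemma dG_0330 (x : Pt 4) : dG 0 3 3 0 x = 0 := rfl
@[simp] lemma dG_0331 (x : Pt 4) : dG 0 3 3 1 x = 0 := rfl
@[simp] lemma dG_0332 (x : Pt 4) : dG 0 3 3 2 x = 0 := rfl
@[simp] lemma dG_0333 (x : Pt 4) : dG 0 3 3 3 x = 0 := rfl
@[simp] lemma dG_1000 (x : Pt 4) : dG 1 0 0 0 x = 0 := rfl
@[simp] lemma dG_1001 (x : Pt 4) : dG 1 0 0 1 x = 0 := rfl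
@[simp] lemma dG_1002 (x : Pt 4) : dG 1 0 0 2 x = 0 := rfl
@[simp] lemma dG_1003 (x : Pt 4) : dG 1 0 0 3 x = 0 := rfl
@[simp] lemma dG_1010 (x : Pt 4) : dG 1 0 1 0 x = 0 := rfl
@[simp] lemma dG_1011 (x : Pt 4) : dG 1 0 1 1 x = 0 := rfl
@[simp] lemma dG_1012 (x : Pt 4) : dG 1 0 1 2 x = 0 := rfl
@[simp] lemma dG_1013 (x : Pt 4) : dG 1 0 1 3 x = 0 := rfl
@[simp] lemma dG_1020 (x : Pt 4) : dG 1 0 2 0 x = 0 := rfl
@[simp] lemma dG_1021 (x : Pt 4) : dG 1 0 2 1 x = 0 := rfl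
@[simp] lemma dG_1022 (x : Pt 4) : dG 1 0 2 2 x = 0 := rfl
@[simp] lemma dG_1023 (x : Pt 4) : dG 1 0 2 3 x = 0 := rfl
@[simp] lemma dG_1030 (x : Pt 4) : dG 1 0 3 0 x = 0 := rfl
@[simp] lemma dG_1031 (x : Pt 4) : dG 1 0 3 1 x = 0 := rfl
@[simp] lemma dG_1032 (x : Pt 4) : dG 1 0 3 2 x = 0 := rfl
@[simp] lemma dG_1033 (x : Pt 4) : dG 1 0 3 3 x = 0 := rfl
@[simp] lemma dG_1100 (x : Pt 4) : dG 1 1 0 0 x = 0 := rfl
@[simp] lemma dG_1101 (x : Pt 4) : dG 1 1 0 1 x = 0 := rfl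
@[simp] lemma dG_1102 (x : Pt 4) : dG 1 1 0 2 x = 0 := rfl
@[simp] lemma dG_1103 (x : Pt 4) : dG 1 1 0 3 x = 0 := rfl
@[simp] lemma dG_1110 (x : Pt 4) : dG 1 1 1 0 x = 0 := rfl
@[simp] lemma dG_1111 (x : Pt 4) : dG 1 1 1 1 x = 0 := rfl
@[simp] lemma dG_1112 (x : Pt 4) : dG 1 1 1 2 x = 0 := rfl
@[simp] lemma dG_1113 (x : Pt 4) : dG 1 1 1 3 x = 0 := rfl
@[simp] lemma dG_1120 (x : Pt 4) : dG 1 1 2 0 x = 0 := rfl
@[simp] lemma dG_1121 (x : Pt 4) : dG 1 1 2 1 x = 0 := rfl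
@[simp] lemma dG_1122 (x : Pt 4) : dG 1 1 2 2 x = 0 := rfl
@[simp] lemma dG_1123 (x : Pt 4) : dG 1 1 2 3 x = 0 := rfl
@[simp] lemma dG_1130 (x : Pt 4) : dG 1 1 3 0 x = 0 := rfl
@[simp] lemma dG_1131 (x : Pt 4) : dG 1 1 3 1 x = 0 := rfl
@[simp] lemma dG_1132 (x : Pt 4) : dG 1 1 3 2 x = 0 := rfl
@[simp] lemma dG_1133 (x : Pt 4) : dG 1 1 3 3 x = 0 := rfl
@[simp] lemma dG_1200 (x : Pt 4) : dG 1 2 0 0 x = 0 := rfl
@[simp] lemma dG_1201 (x : Pt 4) : dG 1 2 0 1 x = 0 := rfl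
@[simp] lemma dG_1202 (x : Pt 4) : dG 1 2 0 2 x = 0 := rfl
@[simp] lemma dG_1203 (x : Pt 4) : dG 1 2 0 3 x = 0 := rfl
@[simp] lemma dG_1210 (x : Pt 4) : dG 1 2 1 0 x = 0 := rfl
@[simp] lemma dG_1211 (x : Pt 4) : dG 1 2 1 1 x = 0 := rfl
@[simp] lemma dG_1212 (x : Pt 4) : dG 1 2 1 2 x = 0 := rfl
@[simp] lemma dG_1213 (x : Pt 4) : dG 1 2 1 3 x = 0 := rfl
@[simp] lemma dG_1220 (x : Pt 4) : dG 1 2 2 0 x = 0 := rfl
@[simp] lemma dG_1221 (x : Pt 4) : dG 1 2 2 1 x = 0 := rfl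
@[simp] lemma dG_1222 (x : Pt 4) : dG 1 2 2 2 x = 0 := rfl
@[simp] lemma dG_1223 (x : Pt 4) : dG 1 2 2 3 x = 0 := rfl
@[simp] lemma dG_1230 (x : Pt 4) : dG 1 2 3 0 x = 0 := rfl
@[simp] lemma dG_1231 (x : Pt 4) : dG 1 2 3 1 x = 0 := rfl
@[simp] lemma dG_1232 (x : Pt 4) : dG 1 2 3 2 x = 0 := rfl
@[simp] lemma dG_1233 (x : Pt 4) : dG 1 2 3 3 x = 0 := rfl
@[simp] lemma dG_1300 (x : Pt 4) : dG 1 3 0 0 x = 0 := rfl
@[simp] lemma dG_1301 (x : Pt 4) : dG 1 3 0 1 x = 0 := rfl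
@[simp] lemma dG_1302 (x : Pt 4) : dG 1 3 0 2 x = 0 := rfl
@[simp] lemma dG_1303 (x : Pt 4) : dG 1 3 0 3 x = 0 := rfl
@[simp] lemma dG_1310 (x : Pt 4) : dG 1 3 1 0 x = 0 := rfl
@[simp] lemma dG_1311 (x : Pt 4) : dG 1 3 1 1 x = 0 := rfl
@[simp] lemma dG_1312 (x : Pt 4) : dG 1 3 1 2 x = 0 := rfl
@[simp] lemma dG_1313 (x : Pt 4) : dG 1 3 1 3 x = 0 := rfl
@[simp] lemma dG_1320 (x : Pt 4) : dG 1 3 2 0 x = 0 := rfl
@[simp] lemma dG_1321 (x : Pt 4) : dG 1 3 2 1 x = 0 := rfl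
@[simp] lemma dG_1322 (x : Pt 4) : dG 1 3 2 2 x = 0 := rfl
@[simp] lemma dG_1323 (x : Pt 4) : dG 1 3 2 3 x = 0 := rfl
@[simp] lemma dG_1330 (x : Pt 4) : dG 1 3 3 0 x = 0 := rfl
@[simp] lemma dG_1331 (x : Pt 4) : dG 1 3 3 1 x = 0 := rfl
@[simp] lemma dG_1332 (x : Pt 4) : dG 1 3 3 2 x = 0 := rfl
@[simp] lemma dG_1333 (x : Pt 4) : dG 1 3 3 3 x = 0 := rfl
@[simp] lemma dG_2000 (x : Pt 4) : dG 2 0 0 0 x = 0 := rfl
@[simp] lemma dG_2001 (x : Pt 4) : dG 2 0 0 1 x = 0 := rfl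
@[simp] lemma dG_2002 (x : Pt 4) : dG 2 0 0 2 x = 0 := rfl
@[simp] lemma dG_2003 (x : Pt 4) : dG 2 0 0 3 x = 0 := rfl
@[simp] lemma dG_2010 (x : Pt 4) : dG 2 0 1 0 x = 0 := rfl
@[simp] lemma dG_2011 (x : Pt 4) : dG 2 0 1 1 x = 0 := rfl
@[simp] lemma dG_2012 (x : Pt 4) : dG 2 0 1 2 x = 0 := rfl
@[simp] lemma dG_2013 (x : Pt 4) : dG 2 0 1 3 x = 0 := rfl
@[simp] lemma dG_2020 (x : Pt 4) : dG 2 0 2 0 x = 0 := rfl
@[simp] lemma dG_2021 (x : Pt 4) : dG 2 0 2 1 x = 0 := rfl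
@[simp] lemma dG_2022 (x : Pt 4) : dG 2 0 2 2 x = 0 := rfl
@[simp] lemma dG_2023 (x : Pt 4) : dG 2 0 2 3 x = 0 := rfl
@[simp] lemma dG_2030 (x : Pt 4) : dG 2 0 3 0 x = 0 := rfl
@[simp] lemma dG_2031 (x : Pt 4) : dG 2 0 3 1 x = 0 := rfl
@[simp] lemma dG_2032 (x : Pt 4) : dG 2 0 3 2 x = 0 := rfl
@[simp] lemma dG_2033 (x : Pt 4) : dG 2 0 3 3 x = 0 := rfl
@[simp] lemma dG_2100 (x : Pt 4) : dG 2 1 0 0 x = 0 := rfl
@[simp] lemma dG_2101 (x : Pt 4) : dG 2 1 0 1 x = 0 := rfl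
@[simp] lemma dG_2102 (x : Pt 4) : dG 2 1 0 2 x = 0 := rfl
@[simp] lemma dG_2103 (x : Pt 4) : dG 2 1 0 3 x = 0 := rfl
@[simp] lemma dG_2110 (x : Pt 4) : dG 2 1 1 0 x = 0 := rfl
@[simp] lemma dG_2111 (x : Pt 4) : dG 2 1 1 1 x = 0 := rfl
@[simp] lemma dG_2112 (x : Pt 4) : dG 2 1 1 2 x = 0 := rfl
@[simp] lemma dG_2113 (x : Pt 4) : dG 2 1 1 3 x = 0 := rfl
@[simp] lemma dG_2120 (x : Pt 4) : dG 2 1 2 0 x = 0 := rfl
@[simp] lemma dG_2121 (x : Pt 4) : dG 2 1 2 1 x = 0 := rfl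
@[simp] lemma dG_2122 (x : Pt 4) : dG 2 1 2 2 x = 0 := rfl
@[simp] lemma dG_2123 (x : Pt 4) : dG 2 1 2 3 x = 0 := rfl
@[simp] lemma dG_2130 (x : Pt 4) : dG 2 1 3 0 x = 0 := rfl
@[simp] lemma dG_2131 (x : Pt 4) : dG 2 1 3 1 x = 0 := rfl
@[simp] lemma dG_2132 (x : Pt 4) : dG 2 1 3 2 x = 0 := rfl
@[simp] lemma dG_2133 (x : Pt 4) : dG 2 1 3 3 x = 0 := rfl
@[simp] lemma dG_2200 (x : Pt 4) : dG 2 2 0 0 x = 0 := rfl
@[simp] lemma dG_2201 (x : Pt 4) : dG 2 2 0 1 x = 0 := rfl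
@[simp] lemma dG_2202 (x : Pt 4) : dG 2 2 0 2 x = 0 := rfl
@[simp] lemma dG_2203 (x : Pt 4) : dG 2 2 0 3 x = 0 := rfl
@[simp] lemma dG_2210 (x : Pt 4) : dG 2 2 1 0 x = 0 := rfl
@[simp] lemma dG_2211 (x : Pt 4) : dG 2 2 1 1 x = 0 := rfl
@[simp] lemma dG_2212 (x : Pt 4) : dG 2 2 1 2 x = 0 := rfl
@[simp] lemma dG_2213 (x : Pt 4) : dG 2 2 1 3 x = 0 := rfl
@[simp] lemma dG_2220 (x : Pt 4) : dG 2 2 2 0 x = 0 := rfl
@[simp] lemma dG_2221 (x : Pt 4) : dG 2 2 2 1 x = 0 := rfl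
@[simp] lemma dG_2222 (x : Pt 4) : dG 2 2 2 2 x = 0 := rfl
@[simp] lemma dG_2223 (x : Pt 4) : dG 2 2 2 3 x = 0 := rfl
@[simp] lemma dG_2230 (x : Pt 4) : dG 2 2 3 0 x = 0 := rfl
@[simp] lemma dG_2231 (x : Pt 4) : dG 2 2 3 1 x = 0 := rfl
@[simp] lemma dG_2232 (x : Pt 4) : dG 2 2 3 2 x = 0 := rfl
@[simp] lemma dG_2233 (x : Pt 4) : dG 2 2 3 3 x = (-2) * Real.exp (2 * x 2) := rfl
@[simp] lemma dG_2300 (x : Pt 4) : dG 2 3 0 0 x = 0 := rfl
@[simp] lemma dG_2301 (x : Pt 4) : dG 2 3 0 1 x = 0 := rfl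
@[simp] lemma dG_2302 (x : Pt 4) : dG 2 3 0 2 x = 0 := rfl
@[simp] lemma dG_2303 (x : Pt 4) : dG 2 3 0 3 x = 0 := rfl
@[simp] lemma dG_2310 (x : Pt 4) : dG 2 3 1 0 x = 0 := rfl
@[simp] lemma dG_2311 (x : Pt 4) : dG 2 3 1 1 x = 0 := rfl
@[simp] lemma dG_2312 (x : Pt 4) : dG 2 3 1 2 x = 0 := rfl
@[simp] lemma dG_2313 (x : Pt 4) : dG 2 3 1 3 x = 0 := rfl
@[simp] lemma dG_2320 (x : Pt 4) : dG 2 3 2 0 x = 0 := rfl
@[simp] lemma dG_2321 (x : Pt 4) : dG 2 3 2 1 x = 0 := rfl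
@[simp] lemma dG_2322 (x : Pt 4) : dG 2 3 2 2 x = 0 := rfl
@[simp] lemma dG_2323 (x : Pt 4) : dG 2 3 2 3 x = 0 := rfl
@[simp] lemma dG_2330 (x : Pt 4) : dG 2 3 3 0 x = 0 := rfl
@[simp] lemma dG_2331 (x : Pt 4) : dG 2 3 3 1 x = 0 := rfl
@[simp] lemma dG_2332 (x : Pt 4) : dG 2 3 3 2 x = 0 := rfl
@[simp] lemma dG_2333 (x : Pt 4) : dG 2 3 3 3 x = 0 := rfl
@[simp] lemma dG_3000 (x : Pt 4) : dG 3 0 0 0 x = 0 := rfl
@[simp] lemma dG_3001 (x : Pt 4) : dG 3 0 0 1 x = 0 := rfl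
@[simp] lemma dG_3002 (x : Pt 4) : dG 3 0 0 2 x = 0 := rfl
@[simp] lemma dG_3003 (x : Pt 4) : dG 3 0 0 3 x = 0 := rfl
@[simp] lemma dG_3010 (x : Pt 4) : dG 3 0 1 0 x = 0 := rfl
@[simp] lemma dG_3011 (x : Pt 4) : dG 3 0 1 1 x = 0 := rfl
@[simp] lemma dG_3012 (x : Pt 4) : dG 3 0 1 2 x = 0 := rfl
@[simp] lemma dG_3013 (x : Pt 4) : dG 3 0 1 3 x = 0 := rfl
@[simp] lemma dG_3020 (x : Pt 4) : dG 3 0 2 0 x = 0 := rfl
@[simp] lemma dG_3021 (x : Pt 4) : dG 3 0 2 1 x = 0 := rfl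
@[simp] lemma dG_3022 (x : Pt 4) : dG 3 0 2 2 x = 0 := rfl
@[simp] lemma dG_3023 (x : Pt 4) : dG 3 0 2 3 x = 0 := rfl
@[simp] lemma dG_3030 (x : Pt 4) : dG 3 0 3 0 x = 0 := rfl
@[simp] lemma dG_3031 (x : Pt 4) : dG 3 0 3 1 x = 0 := rfl
@[simp] lemma dG_3032 (x : Pt 4) : dG 3 0 3 2 x = 0 := rfl
@[simp] lemma dG_3033 (x : Pt 4) : dG 3 0 3 3 x = 0 := rfl
@[simp] lemma dG_3100 (x : Pt 4) : dG 3 1 0 0 x = 0 := rfl
@[simp] lemma dG_3101 (x : Pt 4) : dG 3 1 0 1 x = 0 := rfl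
@[simp] lemma dG_3102 (x : Pt 4) : dG 3 1 0 2 x = 0 := rfl
@[simp] lemma dG_3103 (x : Pt 4) : dG 3 1 0 3 x = 0 := rfl
@[simp] lemma dG_3110 (x : Pt 4) : dG 3 1 1 0 x = 0 := rfl
@[simp] lemma dG_3111 (x : Pt 4) : dG 3 1 1 1 x = 0 := rfl
@[simp] lemma dG_3112 (x : Pt 4) : dG 3 1 1 2 x = 0 := rfl
@[simp] lemma dG_3113 (x : Pt 4) : dG 3 1 1 3 x = 0 := rfl
@[simp] lemma dG_3120 (x : Pt 4) : dG 3 1 2 0 x = 0 := rfl
@[simp] lemma dG_3121 (x : Pt 4) : dG 3 1 2 1 x = 0 := rfl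
@[simp] lemma dG_3122 (x : Pt 4) : dG 3 1 2 2 x = 0 := rfl
@[simp] lemma dG_3123 (x : Pt 4) : dG 3 1 2 3 x = 0 := rfl
@[simp] lemma dG_3130 (x : Pt 4) : dG 3 1 3 0 x = 0 := rfl
@[simp] lemma dG_3131 (x : Pt 4) : dG 3 1 3 1 x = 0 := rfl
@[simp] lemma dG_3132 (x : Pt 4) : dG 3 1 3 2 x = 0 := rfl
@[simp] lemma dG_3133 (x : Pt 4) : dG 3 1 3 3 x = 0 := rfl
@[simp] lemma dG_3200 (x : Pt 4) : dG 3 2 0 0 x = 0 := rfl
@[simp] lemma dG_3201 (x : Pt 4) : dG 3 2 0 1 x = 0 := rfl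
@[simp] lemma dG_3202 (x : Pt 4) : dG 3 2 0 2 x = 0 := rfl
@[simp] lemma dG_3203 (x : Pt 4) : dG 3 2 0 3 x = 0 := rfl
@[simp] lemma dG_3210 (x : Pt 4) : dG 3 2 1 0 x = 0 := rfl
@[simp] lemma dG_3211 (x : Pt 4) : dG 3 2 1 1 x = 0 := rfl
@[simp] lemma dG_3212 (x : Pt 4) : dG 3 2 1 2 x = 0 := rfl
@[simp] lemma dG_3213 (x : Pt 4) : dG 3 2 1 3 x = 0 := rfl
@[simp] lemma dG_3220 (x : Pt 4) : dG 3 2 2 0 x = 0 := rfl
@[simp] lemma dG_3221 (x : Pt 4) : dG 3 2 2 1 x = 0 := rfl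
@[simp] lemma dG_3222 (x : Pt 4) : dG 3 2 2 2 x = 0 := rfl
@[simp] lemma dG_3223 (x : Pt 4) : dG 3 2 2 3 x = 0 := rfl
@[simp] lemma dG_3230 (x : Pt 4) : dG 3 2 3 0 x = 0 := rfl
@[simp] lemma dG_3231 (x : Pt 4) : dG 3 2 3 1 x = 0 := rfl
@[simp] lemma dG_3232 (x : Pt 4) : dG 3 2 3 2 x = 0 := rfl
@[simp] lemma dG_3233 (x : Pt 4) : dG 3 2 3 3 x = 0 := rfl
@[simp] lemma dG_3300 (x : Pt 4) : dG 3 3 0 0 x = 0 := rfl
@[simp] lemma dG_3301 (x : Pt 4) : dG 3 3 0 1 x = 0 := rfl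
@[simp] lemma dG_3302 (x : Pt 4) : dG 3 3 0 2 x = 0 := rfl
@[simp] lemma dG_3303 (x : Pt 4) : dG 3 3 0 3 x = 0 := rfl
@[simp] lemma dG_3310 (x : Pt 4) : dG 3 3 1 0 x = 0 := rfl
@[simp] lemma dG_3311 (x : Pt 4) : dG 3 3 1 1 x = 0 := rfl
@[simp] lemma dG_3312 (x : Pt 4) : dG 3 3 1 2 x = 0 := rfl
@[simp] lemma dG_3313 (x : Pt 4) : dG 3 3 1 3 x = 0 := rfl
@[simp] lemma dG_3320 (x : Pt 4) : dG 3 3 2 0 x = 0 := rfl
@[simp] lemma dG_3321 (x : Pt 4) : dG 3 3 2 1 x = 0 := rfl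
@[simp] lemma dG_3322 (x : Pt 4) : dG 3 3 2 2 x = 0 := rfl
@[simp] lemma dG_3323 (x : Pt 4) : dG 3 3 2 3 x = 0 := rfl
@[simp] lemma dG_3330 (x : Pt 4) : dG 3 3 3 0 x = 0 := rfl
@[simp] lemma dG_3331 (x : Pt 4) : dG 3 3 3 1 x = 0 := rfl
@[simp] lemma dG_3332 (x : Pt 4) : dG 3 3 3 2 x = 0 := rfl
@[simp] lemma dG_3333 (x : Pt 4) : dG 3 3 3 3 x = 0 := rfl
@[simp] lemma J1_00 (x : Pt 4) : J1 0 0 x = 0 := rfl
@[simp] lemma J1_01 (x : Pt 4) : J1 0 1 x = Real.exp (2 * x 0) := rfl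
@[simp] lemma J1_02 (x : Pt 4) : J1 0 2 x = 0 := rfl
@[simp] lemma J1_03 (x : Pt 4) : J1 0 3 x = 0 := rfl
@[simp] lemma J1_10 (x : Pt 4) : J1 1 0 x = (-1) * Real.exp ((-2) * x 0) := rfl
@[simp] lemma J1_11 (x : Pt 4) : J1 1 1 x = 0 := rfl
@[simp] lemma J1_12 (x : Pt 4) : J1 1 2 x = 0 := rfl
@[simp] lemma J1_13 (x : Pt 4) : J1 1 3 x = 0 := rfl
@[simp] lemma J1_20 (x : Pt 4) : J1 2 0 x = 0 := rfl
@[simp] lemma J1_21 (x : Pt 4) : J1 2 1 x = 0 := rfl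
@[simp] lemma J1_22 (x : Pt 4) : J1 2 2 x = 0 := rfl
@[simp] lemma J1_23 (x : Pt 4) : J1 2 3 x = 0 := rfl
@[simp] lemma J1_30 (x : Pt 4) : J1 3 0 x = 0 := rfl
@[simp] lemma J1_31 (x : Pt 4) : J1 3 1 x = 0 := rfl
@[simp] lemma J1_32 (x : Pt 4) : J1 3 2 x = 0 := rfl
@[simp] lemma J1_33 (x : Pt 4) : J1 3 3 x = 0 := rfl
@[simp] lemma W1_00 (x : Pt 4) : W1 0 0 x = 0 := rfl
@[simp] lemma W1_01 (x : Pt 4) : W1 0 1 x = Real.exp (1 * x 0) := rfl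
@[simp] lemma W1_02 (x : Pt 4) : W1 0 2 x = 0 := rfl
@[simp] lemma W1_03 (x : Pt 4) : W1 0 3 x = 0 := rfl
@[simp] lemma W1_10 (x : Pt 4) : W1 1 0 x = (-1) * Real.exp (1 * x 0) := rfl
@[simp] lemma W1_11 (x : Pt 4) : W1 1 1 x = 0 := rfl
@[simp] lemma W1_12 (x : Pt 4) : W1 1 2 x = 0 := rfl
@[simp] lemma W1_13 (x : Pt 4) : W1 1 3 x = 0 := rfl
@[simp] lemma W1_20 (x : Pt 4) : W1 2 0 x = 0 := rfl
@[simp] lemma W1_21 (x : Pt 4) : W1 2 1 x = 0 := rfl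
@[simp] lemma W1_22 (x : Pt 4) : W1 2 2 x = 0 := rfl
@[simp] lemma W1_23 (x : Pt 4) : W1 2 3 x = 0 := rfl
@[simp] lemma W1_30 (x : Pt 4) : W1 3 0 x = 0 := rfl
@[simp] lemma W1_31 (x : Pt 4) : W1 3 1 x = 0 := rfl
@[simp] lemma W1_32 (x : Pt 4) : W1 3 2 x = 0 := rfl
@[simp] lemma W1_33 (x : Pt 4) : W1 3 3 x = 0 := rfl
@[simp] lemma J2_00 (x : Pt 4) : J2 0 0 x = 0 := rfl
@[simp] lemma J2_01 (x : Pt 4) : J2 0 1 x = 0 := rfl
@[simp] lemma J2_02 (x : Pt 4) : J2 0 2 x = 0 := rfl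
@[simp] lemma J2_03 (x : Pt 4) : J2 0 3 x = 0 := rfl
@[simp] lemma J2_10 (x : Pt 4) : J2 1 0 x = 0 := rfl
@[simp] lemma J2_11 (x : Pt 4) : J2 1 1 x = 0 := rfl
@[simp] lemma J2_12 (x : Pt 4) : J2 1 2 x = 0 := rfl
@[simp] lemma J2_13 (x : Pt 4) : J2 1 3 x = 0 := rfl
@[simp] lemma J2_20 (x : Pt 4) : J2 2 0 x = 0 := rfl
@[simp] lemma J2_21 (x : Pt 4) : J2 2 1 x = 0 := rfl
@[simp] lemma J2_22 (x : Pt 4) : J2 2 2 x = 0 := rfl
@[simp] lemma J2_23 (x : Pt 4) : J2 2 3 x = Real.exp (1 * x 2) := rfl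
@[simp] lemma J2_30 (x : Pt 4) : J2 3 0 x = 0 := rfl
@[simp] lemma J2_31 (x : Pt 4) : J2 3 1 x = 0 := rfl
@[simp] lemma J2_32 (x : Pt 4) : J2 3 2 x = (-1) * Real.exp ((-1) * x 2) := rfl
@[simp] lemma J2_33 (x : Pt 4) : J2 3 3 x = 0 := rfl
@[simp] lemma W2_00 (x : Pt 4) : W2 0 0 x = 0 := rfl
@[simp] lemma W2_01 (x : Pt 4) : W2 0 1 x = 0 := rfl
@[simp] lemma W2_02 (x : Pt 4) : W2 0 2 x = 0 := rfl
@[simp] lemma W2_03 (x : Pt 4) : W2 0 3 x = 0 := rfl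
@[simp] lemma W2_10 (x : Pt 4) : W2 1 0 x = 0 := rfl
@[simp] lemma W2_11 (x : Pt 4) : W2 1 1 x = 0 := rfl
@[simp] lemma W2_12 (x : Pt 4) : W2 1 2 x = 0 := rfl
@[simp] lemma W2_13 (x : Pt 4) : W2 1 3 x = 0 := rfl
@[simp] lemma W2_20 (x : Pt 4) : W2 2 0 x = 0 := rfl
@[simp] lemma W2_21 (x : Pt 4) : W2 2 1 x = 0 := rfl
@[simp] lemma W2_22 (x : Pt 4) : W2 2 2 x = 0 := rfl
@[simp] lemma W2_23 (x : Pt 4) : W2 2 3 x = Real.exp (1 * x 2) := rfl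
@[simp] lemma W2_30 (x : Pt 4) : W2 3 0 x = 0 := rfl
@[simp] lemma W2_31 (x : Pt 4) : W2 3 1 x = 0 := rfl
@[simp] lemma W2_32 (x : Pt 4) : W2 3 2 x = (-1) * Real.exp (1 * x 2) := rfl
@[simp] lemma W2_33 (x : Pt 4) : W2 3 3 x = 0 := rfl

lemma curv_eq (a b m p : Fin 4) (x : Pt 4) :
    curv g0 a b m p x = (-3) * Real.exp (1 * x 0) * (J1 a b x * W1 m p x)
      + (-1) * (J2 a b x * W2 m p x) := by
  simp only [curv, Gam_eq, pd_G]
  have e1 : Real.exp (4 * x 0) = Real.exp (x 0) * (Real.exp (2 * x 0) * Real.exp (x 0)) := by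
    rw [← Real.exp_add, ← Real.exp_add]; ring_nf
  have e2 : Real.exp (x 0) * (Real.exp (-(2 * x 0)) * Real.exp (x 0)) = 1 := by
    rw [← Real.exp_add, ← Real.exp_add]; ring_nf; simp
  have e3 : Real.exp (2 * x 2) = Real.exp (x 2) * Real.exp (x 2) := by
    rw [← Real.exp_add]; ring_nf
  have e4 : Real.exp (-x 2) * Real.exp (x 2) = 1 := by
    rw [← Real.exp_add]; simp
  fin_cases a <;> fin_cases b <;> fin_cases m <;> fin_cases p <;>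
    simp [Fin.sum_univ_four] <;>
    first
      | linear_combination (-3 : ℝ) * e1
      | linear_combination (3 : ℝ) * e1
      | linear_combination (-3 : ℝ) * e2
      | linear_combination (3 : ℝ) * e2
      | linear_combination (-1 : ℝ) * e3
      | linear_combination (1 : ℝ) * e3
      | linear_combination (-1 : ℝ) * e4

lemma diff_cexp (b c : ℝ) (k : Fin 4) :
    Differentiable ℝ (fun y : Pt 4 => b * Real.exp (c * y k)) :=
  (diff_exp c k).const_mul b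

lemma pd_cexp (i : Fin 4) (b c : ℝ) (k : Fin 4) (x : Pt 4) :
    pd i (fun y => b * Real.exp (c * y k)) x = (if i = k then c else 0) * (b * Real.exp (c * x k)) := by
  rw [pd_cmul i b (diff_exp c k x), pd_exp]
  split_ifs <;> ring

lemma diff_J1 (a b : Fin 4) : Differentiable ℝ (J1 a b) := by
  fin_cases a <;> fin_cases b <;>
    first
      | exact differentiable_const _
      | exact diff_exp _ _
      | exact diff_cexp _ _ _

lemma diff_J2 (a b : Fin 4) : Differentiable ℝ (J2 a b) := by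
  fin_cases a <;> fin_cases b <;>
    first
      | exact differentiable_const _
      | exact diff_exp _ _
      | exact diff_cexp _ _ _

lemma diff_W1 (a b : Fin 4) : Differentiable ℝ (W1 a b) := by
  fin_cases a <;> fin_cases b <;>
    first
      | exact differentiable_const _
      | exact diff_exp _ _
      | exact diff_cexp _ _ _

lemma diff_W2 (a b : Fin 4) : Differentiable ℝ (W2 a b) := by
  fin_cases a <;> fin_cases b <;>
    first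
      | exact differentiable_const _
      | exact diff_exp _ _
      | exact diff_cexp _ _ _

lemma pd_J1 (c a b : Fin 4) (x : Pt 4) :
    pd c (J1 a b) x = (if c = 0 then (if a = 0 then 2 else -2) else 0) * J1 a b x := by
  fin_cases a <;> fin_cases b <;>
    first
      | (refine (pd_const _ _ _).trans ?_; simp)
      | (refine (pd_exp _ _ _ _).trans ?_; simp)
      | (refine (pd_cexp _ _ _ _ _).trans ?_; simp)

lemma pd_J2 (c a b : Fin 4) (x : Pt 4) :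
    pd c (J2 a b) x = (if c = 2 then (if a = 2 then 1 else -1) else 0) * J2 a b x := by
  fin_cases a <;> fin_cases b <;>
    first
      | (refine (pd_const _ _ _).trans ?_; simp)
      | (refine (pd_exp _ _ _ _).trans ?_; simp)
      | (refine (pd_cexp _ _ _ _ _).trans ?_; simp)

lemma pd_W1 (c a b : Fin 4) (x : Pt 4) :
    pd c (W1 a b) x = (if c = 0 then 1 else 0) * W1 a b x := by
  fin_cases a <;> fin_cases b <;>
    first
      | (refine (pd_const _ _ _).trans ?_; simp)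
      | (refine (pd_exp _ _ _ _).trans ?_; simp)
      | (refine (pd_cexp _ _ _ _ _).trans ?_; simp)

lemma pd_W2 (c a b : Fin 4) (x : Pt 4) :
    pd c (W2 a b) x = (if c = 2 then 1 else 0) * W2 a b x := by
  fin_cases a <;> fin_cases b <;>
    first
      | (refine (pd_const _ _ _).trans ?_; simp)
      | (refine (pd_exp _ _ _ _).trans ?_; simp)
      | (refine (pd_cexp _ _ _ _ _).trans ?_; simp)

lemma par_J1 (c a b : Fin 4) (x : Pt 4) :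
    pd c (J1 a b) x + ∑ s, G a c s x * J1 s b x - ∑ s, G s c b x * J1 a s x = 0 := by
  rw [pd_J1]
  have e5 : Real.exp (4 * x 0) * Real.exp (-(2 * x 0)) = Real.exp (2 * x 0) := by
    rw [← Real.exp_add]; ring_nf
  fin_cases c <;> fin_cases a <;> fin_cases b <;> simp [Fin.sum_univ_four] <;>
    first
      | ring1
      | linear_combination (3 / 2 : ℝ) * e5
      | linear_combination (-3 / 2 : ℝ) * e5

lemma par_W1 (c a b : Fin 4) (x : Pt 4) :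
    pd c (W1 a b) x - ∑ s, G s c a x * W1 s b x - ∑ s, G s c b x * W1 a s x = 0 := by
  rw [pd_W1]
  fin_cases c <;> fin_cases a <;> fin_cases b <;> simp [Fin.sum_univ_four] <;> ring

lemma par_J2 (c a b : Fin 4) (x : Pt 4) :
    pd c (J2 a b) x + ∑ s, G a c s x * J2 s b x - ∑ s, G s c b x * J2 a s x = 0 := by
  rw [pd_J2]
  have e5 : Real.exp (2 * x 2) * Real.exp (-x 2) = Real.exp (x 2) := by
    rw [← Real.exp_add]; ring_nf
  fin_cases c <;> fin_cases a <;> fin_cases b <;> simp [Fin.sum_univ_four] <;>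
    first
      | ring1
      | linear_combination (1 : ℝ) * e5
      | linear_combination (-1 : ℝ) * e5

lemma par_W2 (c a b : Fin 4) (x : Pt 4) :
    pd c (W2 a b) x - ∑ s, G s c a x * W2 s b x - ∑ s, G s c b x * W2 a s x = 0 := by
  rw [pd_W2]
  fin_cases c <;> fin_cases a <;> fin_cases b <;> simp [Fin.sum_univ_four] <;> ring

/-- the curvature type tensors of the two factors -/
noncomputable def E1 (a b m p : Fin 4) (x : Pt 4) : ℝ := J1 a b x * W1 m p x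
noncomputable def E2 (a b m p : Fin 4) (x : Pt 4) : ℝ := J2 a b x * W2 m p x

lemma diff_E1 (a b m p : Fin 4) : Differentiable ℝ (E1 a b m p) :=
  (diff_J1 a b).mul (diff_W1 m p)
lemma diff_E2 (a b m p : Fin 4) : Differentiable ℝ (E2 a b m p) :=
  (diff_J2 a b).mul (diff_W2 m p)

lemma par_E1 (c a b m p : Fin 4) (x : Pt 4) :
    pd c (E1 a b m p) x + ∑ s, G a c s x * E1 s b m p x
      - ∑ s, G s c b x * E1 a s m p x - ∑ s, G s c m x * E1 a b s p x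
      - ∑ s, G s c p x * E1 a b m s x = 0 := by
  have h : pd c (E1 a b m p) x = pd c (J1 a b) x * W1 m p x + J1 a b x * pd c (W1 m p) x :=
    pd_mul c (diff_J1 a b x) (diff_W1 m p x)
  rw [h]
  have h1 := par_J1 c a b x
  have h2 := par_W1 c m p x
  simp only [E1, Fin.sum_univ_four] at *
  linear_combination W1 m p x * h1 + J1 a b x * h2

lemma par_E2 (c a b m p : Fin 4) (x : Pt 4) :
    pd c (E2 a b m p) x + ∑ s, G a c s x * E2 s b m p x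
      - ∑ s, G s c b x * E2 a s m p x - ∑ s, G s c m x * E2 a b s p x
      - ∑ s, G s c p x * E2 a b m s x = 0 := by
  have h : pd c (E2 a b m p) x = pd c (J2 a b) x * W2 m p x + J2 a b x * pd c (W2 m p) x :=
    pd_mul c (diff_J2 a b x) (diff_W2 m p x)
  rw [h]
  have h1 := par_J2 c a b x
  have h2 := par_W2 c m p x
  simp only [E2, Fin.sum_univ_four] at *
  linear_combination W2 m p x * h1 + J2 a b x * h2

/-- gradient of the Gauss curvature `-3 e^u` of the first factor -/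
noncomputable def k1 : Fin 4 → Pt 4 → ℝ
  | 0 => fun x => (-3) * Real.exp (1 * x 0)
  | _ => fun _ => 0

lemma k1_0 (x : Pt 4) : k1 0 x = (-3) * Real.exp (1 * x 0) := rfl
lemma k1_1 (x : Pt 4) : k1 1 x = 0 := rfl
lemma k1_2 (x : Pt 4) : k1 2 x = 0 := rfl
lemma k1_3 (x : Pt 4) : k1 3 x = 0 := rfl

/-- Hessian of the Gauss curvature of the first factor -/
noncomputable def h1 : Fin 4 → Fin 4 → Pt 4 → ℝ
  | 0, 0 => fun x => (-9 / 2) * Real.exp (1 * x 0)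
  | 1, 1 => fun x => (-9 / 2) * Real.exp (5 * x 0)
  | _, _ => fun _ => 0

@[simp] lemma h1_00 (x : Pt 4) : h1 0 0 x = (-9 / 2) * Real.exp (1 * x 0) := rfl
@[simp] lemma h1_01 (x : Pt 4) : h1 0 1 x = 0 := rfl
@[simp] lemma h1_02 (x : Pt 4) : h1 0 2 x = 0 := rfl
@[simp] lemma h1_03 (x : Pt 4) : h1 0 3 x = 0 := rfl
@[simp] lemma h1_10 (x : Pt 4) : h1 1 0 x = 0 := rfl
@[simp] lemma h1_11 (x : Pt 4) : h1 1 1 x = (-9 / 2) * Real.exp (5 * x 0) := rfl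
@[simp] lemma h1_12 (x : Pt 4) : h1 1 2 x = 0 := rfl
@[simp] lemma h1_13 (x : Pt 4) : h1 1 3 x = 0 := rfl
@[simp] lemma h1_20 (x : Pt 4) : h1 2 0 x = 0 := rfl
@[simp] lemma h1_21 (x : Pt 4) : h1 2 1 x = 0 := rfl
@[simp] lemma h1_22 (x : Pt 4) : h1 2 2 x = 0 := rfl
@[simp] lemma h1_23 (x : Pt 4) : h1 2 3 x = 0 := rfl
@[simp] lemma h1_30 (x : Pt 4) : h1 3 0 x = 0 := rfl
@[simp] lemma h1_31 (x : Pt 4) : h1 3 1 x = 0 := rfl
@[simp] lemma h1_32 (x : Pt 4) : h1 3 2 x = 0 := rfl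
@[simp] lemma h1_33 (x : Pt 4) : h1 3 3 x = 0 := rfl

lemma diff_k1 (c : Fin 4) : Differentiable ℝ (k1 c) := by
  fin_cases c <;>
    first
      | exact differentiable_const _
      | exact diff_cexp _ _ _

lemma diff_h1 (a b : Fin 4) : Differentiable ℝ (h1 a b) := by
  fin_cases a <;> fin_cases b <;>
    first
      | exact differentiable_const _
      | exact diff_cexp _ _ _

lemma pd_k1 (d c : Fin 4) (x : Pt 4) : pd d (k1 c) x = (if d = 0 then 1 else 0) * k1 c x := by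
  fin_cases c <;>
    first
      | (refine (pd_const _ _ _).trans ?_; simp [k1_1, k1_2, k1_3])
      | (refine (pd_cexp _ _ _ _ _).trans ?_; simp [k1_0])

lemma pd_h1 (e d c : Fin 4) (x : Pt 4) :
    pd e (h1 d c) x = (if e = 0 then (if c = 0 then 1 else 5) else 0) * h1 d c x := by
  fin_cases d <;> fin_cases c <;>
    first
      | (refine (pd_const _ _ _).trans ?_; simp)
      | (refine (pd_cexp _ _ _ _ _).trans ?_; simp)

lemma hess_k1 (d c : Fin 4) (x : Pt 4) :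
    pd d (k1 c) x - ∑ s, G s d c x * k1 s x = h1 d c x := by
  rw [pd_k1]
  have e6 : Real.exp (4 * x 0) * Real.exp (x 0) = Real.exp (5 * x 0) := by
    rw [← Real.exp_add]; ring_nf
  fin_cases d <;> fin_cases c <;> simp [Fin.sum_univ_four, k1_0, k1_1, k1_2, k1_3] <;>
    first
      | ring1
      | linear_combination (-9 / 2 : ℝ) * e6

lemma nab_h1 (e d c : Fin 4) (x : Pt 4) :
    pd e (h1 d c) x - ∑ s, G s e d x * h1 s c x - ∑ s, G s e c x * h1 d s x =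
      (if e = 0 then 2 else 0) * h1 d c x := by
  rw [pd_h1]
  have e6 : Real.exp (4 * x 0) * Real.exp (x 0) = Real.exp (5 * x 0) := by
    rw [← Real.exp_add]; ring_nf
  fin_cases e <;> fin_cases d <;> fin_cases c <;> simp [Fin.sum_univ_four] <;>
    first
      | ring1
      | linear_combination (27 / 4 : ℝ) * e6
      | linear_combination (-27 / 4 : ℝ) * e6

lemma cov3 (T : Tens 4) (a c b m p : Fin 4) (x : Pt 4) :
    cov g0 T a [c, b, m, p] x = pd c (T a [b, m, p]) x + ∑ s, G a c s x * T s [b, m, p] x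
      - ∑ s, G s c b x * T a [s, m, p] x - ∑ s, G s c m x * T a [b, s, p] x
      - ∑ s, G s c p x * T a [b, m, s] x := by
  have h : ∑ j : Fin [b, m, p].length, ∑ s, G s c ([b, m, p].get j) x *
      T a ([b, m, p].set j s) x = ∑ s, G s c b x * T a [s, m, p] x +
      ∑ s, G s c m x * T a [b, s, p] x + ∑ s, G s c p x * T a [b, m, s] x :=
    Fin.sum_univ_three _
  simp only [cov, Gam_eq]
  rw [h]
  ring

lemma cov4 (T : Tens 4) (a d c b m p : Fin 4) (x : Pt 4) :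
    cov g0 T a [d, c, b, m, p] x = pd d (T a [c, b, m, p]) x
      + ∑ s, G a d s x * T s [c, b, m, p] x
      - ∑ s, G s d c x * T a [s, b, m, p] x
      - ∑ s, G s d b x * T a [c, s, m, p] x - ∑ s, G s d m x * T a [c, b, s, p] x
      - ∑ s, G s d p x * T a [c, b, m, s] x := by
  have h : ∑ j : Fin [c, b, m, p].length, ∑ s, G s d ([c, b, m, p].get j) x *
      T a ([c, b, m, p].set j s) x = ∑ s, G s d c x * T a [s, b, m, p] x +
      ∑ s, G s d b x * T a [c, s, m, p] x +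
      ∑ s, G s d m x * T a [c, b, s, p] x + ∑ s, G s d p x * T a [c, b, m, s] x :=
    Fin.sum_univ_four _
  simp only [cov, Gam_eq]
  rw [h]
  ring

lemma cov5 (T : Tens 4) (a e d c b m p : Fin 4) (x : Pt 4) :
    cov g0 T a [e, d, c, b, m, p] x = pd e (T a [d, c, b, m, p]) x
      + ∑ s, G a e s x * T s [d, c, b, m, p] x
      - ∑ s, G s e d x * T a [s, c, b, m, p] x
      - ∑ s, G s e c x * T a [d, s, b, m, p] x
      - ∑ s, G s e b x * T a [d, c, s, m, p] x - ∑ s, G s e m x * T a [d, c, b, s, p] x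
      - ∑ s, G s e p x * T a [d, c, b, m, s] x := by
  have h : ∑ j : Fin [d, c, b, m, p].length, ∑ s, G s e ([d, c, b, m, p].get j) x *
      T a ([d, c, b, m, p].set j s) x = ∑ s, G s e d x * T a [s, c, b, m, p] x +
      ∑ s, G s e c x * T a [d, s, b, m, p] x +
      ∑ s, G s e b x * T a [d, c, s, m, p] x +
      ∑ s, G s e m x * T a [d, c, b, s, p] x + ∑ s, G s e p x * T a [d, c, b, m, s] x :=
    Fin.sum_univ_five _
  simp only [cov, Gam_eq]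
  rw [h]
  ring

lemma R0 (a b m p : Fin 4) :
    nablaR g0 0 a [b, m, p] = fun x => (-3) * Real.exp (1 * x 0) * E1 a b m p x
      + (-1) * E2 a b m p x := by
  funext x
  exact curv_eq a b m p x

lemma pd_add' (i : Fin 4) {f h : Pt 4 → ℝ} {x : Pt 4} (hf : DifferentiableAt ℝ f x)
    (hh : DifferentiableAt ℝ h x) :
    pd i (fun y => f y + h y) x = pd i f x + pd i h x := by
  rw [pd, fderiv_fun_add hf hh]
  simp [pd]

lemma R1 (a c b m p : Fin 4) :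
    nablaR g0 1 a [c, b, m, p] = fun x => k1 c x * E1 a b m p x := by
  funext x
  change cov g0 (nablaR g0 0) a [c, b, m, p] x = _
  rw [cov3]
  simp only [R0]
  have hpd : pd c (fun x => (-3) * Real.exp (1 * x 0) * E1 a b m p x
      + (-1) * E2 a b m p x) x = pd c (fun x => (-3) * Real.exp (1 * x 0) * E1 a b m p x) x
        + pd c (fun x => (-1) * E2 a b m p x) x :=
    pd_add' c ((diff_cexp (-3) 1 0 x).mul (diff_E1 a b m p x))
      ((diff_E2 a b m p x).const_mul (-1))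
  rw [hpd, pd_mul c (diff_cexp (-3) 1 0 x) (diff_E1 a b m p x),
    pd_cmul c (-1) (diff_E2 a b m p x), pd_cexp]
  have p1 := par_E1 c a b m p x
  have p2 := par_E2 c a b m p x
  have hk : k1 c x = (if c = 0 then 1 else 0) * (-3 * Real.exp (1 * x 0)) := by
    fin_cases c <;> simp [k1_0, k1_1, k1_2, k1_3]
  rw [hk]
  simp only [Fin.sum_univ_four] at *
  linear_combination (-3) * Real.exp (1 * x 0) * p1 + (-1) * p2

lemma R2 (a d c b m p : Fin 4) :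
    nablaR g0 2 a [d, c, b, m, p] = fun x => h1 d c x * E1 a b m p x := by
  funext x
  change cov g0 (nablaR g0 1) a [d, c, b, m, p] x = _
  rw [cov4]
  simp only [R1]
  rw [pd_mul d (diff_k1 c x) (diff_E1 a b m p x)]
  have p1 := par_E1 d a b m p x
  have p2 := hess_k1 d c x
  simp only [Fin.sum_univ_four] at *
  linear_combination k1 c x * p1 + E1 a b m p x * p2

lemma R3 (a e d c b m p : Fin 4) (x : Pt 4) :
    nablaR g0 3 a [e, d, c, b, m, p] x = (if e = 0 then 2 else 0) * (h1 d c x * E1 a b m p x) := by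
  change cov g0 (nablaR g0 2) a [e, d, c, b, m, p] x = _
  rw [cov5]
  simp only [R2]
  rw [pd_mul e (diff_h1 d c x) (diff_E1 a b m p x)]
  have p1 := par_E1 e a b m p x
  have p2 := nab_h1 e d c x
  simp only [Fin.sum_univ_four] at *
  linear_combination h1 d c x * p1 + E1 a b m p x * p2

lemma isRiem : IsRiemannian g0 := by
  constructor
  · intro i j
    have h : ∀ c : ℝ, ∀ k : Fin 4, ContDiff ℝ ((⊤ : ℕ∞) : WithTop ℕ∞)
        (fun x : Pt 4 => Real.exp (c * x k)) := by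
      intro c k; fun_prop
    fin_cases i <;> fin_cases j <;>
      first
        | exact h _ _
        | exact contDiff_const
  · intro x
    refine Matrix.PosDef.diagonal ?_
    intro i
    fin_cases i <;> simp [Real.exp_pos]

lemma ksAt (x : Pt 4) : KSAt g0 3 (fun m l => if m = 1 ∧ l = [0] then -2 else 0) x := by
  intro a l hl
  match l, hl with
  | [e, d, c, b, m, p], _ =>
    rw [R3]
    simp [Finset.sum_Icc_succ_top, R2]
    split_ifs <;> ring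

lemma nablaR_ne (x : Pt 4) : nablaR g0 1 0 [0, 1, 0, 1] x ≠ 0 := by
  rw [R1]
  simp only [k1_0, E1, J1_01, W1_01]
  have h1 := Real.exp_pos (1 * x 0)
  have h2 := Real.exp_pos (2 * x 0)
  positivity

lemma ric_det (x : Pt 4) : (ric g0 x).det ≠ 0 := by
  have h : ric g0 x = Matrix.diagonal ![(-3) * Real.exp (1 * x 0) * Real.exp ((-1) * x 0),
      (-3) * Real.exp (1 * x 0) * Real.exp (3 * x 0), -1, - Real.exp (2 * x 2)] := by
    have e3 : Real.exp (2 * x 0) * Real.exp (x 0) = Real.exp (3 * x 0) := by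
      rw [← Real.exp_add]; ring_nf
    have e4 : Real.exp (2 * x 2) = Real.exp (x 2) * Real.exp (x 2) := by
      rw [← Real.exp_add]; ring_nf
    have e5 : Real.exp (-x 2) * Real.exp (x 2) = 1 := by
      rw [← Real.exp_add]; simp
    ext b p
    simp only [ric, Matrix.of_apply, curv_eq, Fin.sum_univ_four]
    have e6 : Real.exp (-(2 * x 0)) * Real.exp (x 0) = Real.exp (-x 0) := by
      rw [← Real.exp_add]; ring_nf
    fin_cases b <;> fin_cases p <;> simp <;>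
      first
        | exact e6
        | exact e3
        | exact e5
        | exact e4.symm
  rw [h, Matrix.det_diagonal]
  simp [Fin.prod_univ_four]

lemma not_ks1 (x : Pt 4) (t : ℕ → List (Fin 4) → ℝ) : ¬ KSAt g0 1 t x := by
  intro h
  have h1 := h 2 [0, 3, 2, 3] rfl
  have h2 := h 0 [0, 1, 0, 1] rfl
  simp [R1, R0, k1_0, E1, E2] at h1 h2
  rw [h1] at h2
  have h4 := Real.exp_pos (x 0)
  have h5 := Real.exp_pos (2 * x 0)
  have h6 : 0 < 3 * Real.exp (x 0) * (Real.exp (2 * x 0) * Real.exp (x 0)) := by positivity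
  linarith

lemma not_ks2 (x : Pt 4) (t : ℕ → List (Fin 4) → ℝ) : ¬ KSAt g0 2 t x := by
  intro h
  have h1 := h 2 [1, 1, 3, 2, 3] rfl
  have h2 := h 0 [1, 1, 1, 0, 1] rfl
  simp [Finset.sum_Icc_succ_top, R2, R1, R0, k1_1, E1, E2] at h1 h2
  rw [h1] at h2
  have h4 := Real.exp_pos (x 0)
  have h5 := Real.exp_pos (2 * x 0)
  have h7 := Real.exp_pos (5 * x 0)
  have h6 : 0 < 9 / 2 * Real.exp (5 * x 0) * (Real.exp (2 * x 0) * Real.exp (x 0)) := by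
    positivity
  linarith

/-- **Counterexample.**  There is a Riemannian metric `g` on `ℝ⁴` which is a `KS_4` manifold of
order `3`, such that at every point `∇R ≠ 0` (so it is nowhere locally symmetric), the Ricci tensor
is nondegenerate (so there is no flat factor), and the equations of order `1` and `2` fail for
every choice of coefficients (so it is neither recurrent nor of second order type). -/
theorem result : ∃ g : Pt 4 → Matrix (Fin 4) (Fin 4) ℝ,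
    IsRiemannian g ∧ IsKS g 3 ∧
      ∀ x : Pt 4, (∃ a b c d e, nablaR g 1 a [b, c, d, e] x ≠ 0) ∧ (ric g x).det ≠ 0 ∧
        ∀ t : ℕ → List (Fin 4) → ℝ, ¬ KSAt g 1 t x ∧ ¬ KSAt g 2 t x := by
  refine ⟨g0, isRiem, ⟨fun m l _ => if m = 1 ∧ l = [0] then -2 else 0, fun m l => contDiff_const,
    ksAt⟩, fun x => ⟨⟨0, 0, 1, 0, 1, nablaR_ne x⟩, ric_det x, fun t => ⟨not_ks1 x t, not_ks2 x t⟩⟩⟩

end Pool.Agent.Results.MP_9d59e9_gt.ProductCounterexample
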