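import Mathlib
import Pool.Agent.Lib.MP_9d59e9_gt.KO.Defs
import Pool.Agent.Lib.MP_9d59e9_gt.ND.Defs
import Pool.Agent.Lib.MP_9d59e9_gt.ND.All

/-!
# MP_9d59e9_gt: Riemannian KS manifolds of any order with special holonomy

Let `g` be a smooth Riemannian metric on an open set `Ω ⊆ ℝⁿ` such that
`∇^r R + t¹ ⊗ ∇^(r-1) R + ⋯ + t^r ⊗ R = 0` on `Ω`, for some `r` and arbitrary coefficients (not even
continuity is assumed).  For `x ∈ Ω` let `hol g r x` be the linear span of the endomorphisms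
`(∇^k R)_x(∂_{c₁}, …, ∂_{c_k}; ∂_m, ∂_p)`, `k < r`, of the tangent space.  If `hol g r x` contains no
endomorphism of rank two for all `x` in a dense subset of `Ω`, then `∇R = 0` on `Ω`.

The definitions are in `Pool.Agent.Lib.MP_9d59e9_gt.KO.Defs`, part 1, and in
`Pool.Agent.Lib.MP_9d59e9_gt.ND.Defs`, part 1 (`hol`).
-/

set_option autoImplicit false

namespace Pool.Agent.Results.MP_9d59e9_gt.SpecialHolonomy

open scoped BigOperators ContDiff
open Pool.Agent.Lib.MP_9d59e9_gt.KO Pool.Agent.Lib.MP_9d59e9_gt.ND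

/-- Riemannian KS manifolds of any order, with arbitrary coefficients, whose infinitesimal holonomy
contains no element of rank two are locally symmetric. -/
theorem result {n r : ℕ} (g : Pt n → Matrix (Fin n) (Fin n) ℝ) (Ω : Set (Pt n))
    (hg : IsMetricOn g Ω) (t : ℕ → List (Fin n) → Pt n → ℝ)
    (hKS : ∀ x ∈ Ω, KSAt g r (fun m l => t m l x) x)
    (hdense : Ω ⊆ closure {x | ∀ E ∈ hol g r x, E.rank ≠ 2}) :
    ∀ x ∈ Ω, ∀ a c b m q, nablaR g 1 a [c, b, m, q] x = 0 :=
  Pool.Agent.Lib.MP_9d59e9_gt.ND.sFin n r g Ω hg t hKS hdense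

end Pool.Agent.Results.MP_9d59e9_gt.SpecialHolonomy
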