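import Mathlib
import Pool.Agent.Lib.MP_9d59e9_gt.KO.Defs
import Pool.Agent.Lib.MP_9d59e9_gt.KO3.Defs
import Pool.Agent.Lib.MP_9d59e9_gt.KO3.All
import Pool.Agent.Lib.MP_9d59e9_gt.KS.Defs
import Pool.Agent.Lib.MP_9d59e9_gt.KS.AllO

/-!
# MP_9d59e9_gt: Riemannian KS manifolds of every order `r ≥ 3` with nonsingular curvature operator
# and symmetric coefficients

Let `n ≥ 3`, `r ≥ 3`, and `n ≥ 4` if `r ≥ 4`.  Let `g` be a smooth Riemannian metric on a connected
open set `Ω ⊆ ℝⁿ` such that `∇ʳR + t¹ ⊗ ∇ʳ⁻¹R + … + tʳ ⊗ R = 0` on `Ω` for some smooth covariant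
tensor fields `t¹, …, tʳ`, where each `tᵐ` with `3 ≤ m < r` is symmetric in its first two slots on
the kernel of the 1-form `t¹` (there is no condition on `t¹`, `t²`, `tʳ`).  If the curvature
operator is injective at one point of `Ω`, then `∇R = 0` on `Ω`.

For `r = 3` there is no condition on the coefficients.

The definitions are in `Pool.Agent.Lib.MP_9d59e9_gt.KO.Defs`, part 1, in
`Pool.Agent.Lib.MP_9d59e9_gt.KO3.Defs`, part 1 (`NonSing`), and in
`Pool.Agent.Lib.MP_9d59e9_gt.KS.Defs`, part 1 (`SymKer`).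
-/

set_option autoImplicit false

namespace Pool.Agent.Results.MP_9d59e9_gt.SymmetricCoefficients

open scoped BigOperators ContDiff
open Pool.Agent.Lib.MP_9d59e9_gt.KO Pool.Agent.Lib.MP_9d59e9_gt.KO3 Pool.Agent.Lib.MP_9d59e9_gt.KS

/-- Riemannian KS manifolds of order `r ≥ 3` with symmetric coefficients and a point of injective
curvature operator are locally symmetric. -/
theorem result {n r : ℕ} (hn : 3 ≤ n) (hr : 3 ≤ r) (hnr : 4 ≤ r → 4 ≤ n)
    (g : Pt n → Matrix (Fin n) (Fin n) ℝ) (Ω : Set (Pt n))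
    (hg : IsMetricOn g Ω) (hΩ : IsPreconnected Ω) (t : ℕ → List (Fin n) → Pt n → ℝ)
    (ht : ∀ m l, ContDiffOn ℝ ∞ (t m l) Ω)
    (hKS : ∀ x ∈ Ω, KSAt g r (fun m l => t m l x) x)
    (hs : ∀ x ∈ Ω, ∀ m, 3 ≤ m → m < r → SymKer (fun m l => t m l x) m)
    (p : Pt n) (hp : p ∈ Ω) (hns : NonSing g p) :
    ∀ x ∈ Ω, ∀ a c b m q, nablaR g 1 a [c, b, m, q] x = 0 := by
  rcases Nat.lt_or_ge r 4 with h | h
  · have h3 : r = 3 := by omega
    subst h3
    exact sFin3 hn g Ω hg hΩ t ht hKS p hp hns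
  · exact sFinS (hnr h) h g Ω hg hΩ t ht hKS hs p hp hns

end Pool.Agent.Results.MP_9d59e9_gt.SymmetricCoefficients
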